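import Pool.Agent.W952.Sat.Defs

set_option autoImplicit false

/-! Programs with a stack that read words. -/

namespace Pool.Agent.W902.SatS

open Pool.Agent.W952.Sat (Sym)

/-- What is done in a node of a program that reads words of length `n`: `query i nxt` reads the
position `i` of the word and proceeds to the node `nxt s`, `s` being the letter there; `push a q`
puts the symbol `a` on the stack and proceeds to the node `q`; `pop nxt` removes the symbol `a` on
the top of the stack and proceeds to the node `nxt a` (if the stack is empty then the computation
ends without answer); `out b` ends the computation with the answer `b`. -/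
inductive Act (n : ℕ) (S Γ : Type) where
  | query (i : Fin n) (nxt : Sym → S)
  | push (a : Γ) (q : S)
  | pop (nxt : Γ → S)
  | out (b : Bool)

/-- A deterministic program with a stack that reads words of length `n`. There are finitely many
nodes; the stack symbols may be the elements of any type, and there is no bound on the height of
the stack or on the number of steps; the positions are queried in any order, with repetitions. -/
structure PProg (n : ℕ) where
  /-- the nodes -/
  Node : Type
  /-- there are finitely many of them -/
  [fintype : Fintype Node]
  /-- the stack symbols -/
  Stk : Type
  /-- the first node -/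
  start : Node
  /-- what is done in a node -/
  act : Node → Act n Node Stk

attribute [instance] PProg.fintype

/-- `P.Runs w q σ t b`: on the word `w`, from the node `q` with the stack `σ`, the program makes
exactly `t` queries and then answers `b`. -/
inductive PProg.Runs {n : ℕ} (P : PProg n) (w : Fin n → Sym) :
    P.Node → List P.Stk → ℕ → Bool → Prop
  | out {q : P.Node} {σ : List P.Stk} {b : Bool} (h : P.act q = Act.out b) : Runs P w q σ 0 b
  | query {q : P.Node} {σ : List P.Stk} {i : Fin n} {nxt : Sym → P.Node} {t : ℕ} {b : Bool}
      (h : P.act q = Act.query i nxt) (r : Runs P w (nxt (w i)) σ t b) : Runs P w q σ (t + 1) b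
  | push {q : P.Node} {σ : List P.Stk} {a : P.Stk} {q' : P.Node} {t : ℕ} {b : Bool}
      (h : P.act q = Act.push a q') (r : Runs P w q' (a :: σ) t b) : Runs P w q σ t b
  | pop {q : P.Node} {a : P.Stk} {σ : List P.Stk} {nxt : P.Stk → P.Node} {t : ℕ} {b : Bool}
      (h : P.act q = Act.pop nxt) (r : Runs P w (nxt a) σ t b) : Runs P w q (a :: σ) t b

/-- on the word `w` the program, started with the empty stack, gives the answer `b` after at most
`T` queries -/
def PProg.Answers {n : ℕ} (P : PProg n) (w : Fin n → Sym) (T : ℕ) (b : Bool) : Prop :=
  ∃ t ≤ T, P.Runs w P.start [] t b

end Pool.Agent.W902.SatS
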