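import Pool.Agent.W952.Sat.Main
import Pool.Agent.W902.SatS.Core
import Pool.Agent.W902.SatS.Defs

set_option autoImplicit false
set_option linter.unusedSectionVars false

/-! Families of pushdown programs with linearly many queries for the satisfiability problem. -/

open Finset

namespace Pool.Agent.W902.SatS

open Pool.Agent.H822R5.LN Pool.Agent.W952.Mx Pool.Agent.W952.Fr Pool.Agent.W952.Ap
open Pool.Agent.H554R2.Sem Pool.Agent.H554R2.Coin
open Pool.Agent.W952.Sat (Sym Expr word dig sv TE fam root len_and len_var sat_iff dv len_inst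
  code_inst)
open Pool.Agent.W896.PD (PP)

section

variable {n N : ℕ}

/-- the actions of the Boolean program -/
def nd (hN : 0 < N) (W : Fin n → Sym ⊕ Fin N) {S Γ : Type}
    (a : Act n S Γ) : Pool.Agent.W896.PD.Act (Fin N) Bool S Γ :=
  match a with
  | .query i nxt =>
    match W i with
    | Sum.inl s => .query ⟨0, hN⟩ (fun _ => nxt s)
    | Sum.inr u => .query u (fun b => nxt (dig b))
  | .push a q => .push a q
  | .pop nxt => .pop nxt
  | .out b => .out b

/-- the Boolean program -/
@[reducible] def toPP (hN : 0 < N) (W : Fin n → Sym ⊕ Fin N) (P : PProg n) : PP (Fin N) Bool where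
  State := P.Node
  Sym := P.Stk
  start := P.start
  act := fun s => nd hN W (P.act s)

theorem nd_query (hN : 0 < N) (W : Fin n → Sym ⊕ Fin N) {S Γ : Type} (i : Fin n)
    (nxt : Sym → S) :
    ∃ (u : Fin N) (nxt' : Bool → S),
      nd (Γ := Γ) hN W (.query i nxt) = .query u nxt' ∧
      ∀ x : Pt N, nxt' (x u) = nxt (sv x (W i)) := by
  rcases hW : W i with s | u
  · exact ⟨⟨0, hN⟩, fun _ => nxt s, by simp [nd, hW], fun x => by simp [sv]⟩
  · exact ⟨u, fun b => nxt (dig b), by simp [nd, hW], fun x => by simp [sv]⟩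

theorem runs_to (hN : 0 < N) (W : Fin n → Sym ⊕ Fin N) (P : PProg n) (x : Pt N)
    {q : P.Node} {σ : List P.Stk} {t : ℕ} {b : Bool}
    (h : P.Runs (fun i => sv x (W i)) q σ t b) :
    ∃ l, (toPP hN W P).Runs x q σ l b ∧ l.length = t := by
  induction h with
  | @out q σ b h =>
    refine ⟨[], PP.Runs.out ?_, rfl⟩
    show nd hN W (P.act q) = _
    rw [h]; rfl
  | @query q σ i nxt t b h _ ih =>
    obtain ⟨l, h1, h2⟩ := ih
    obtain ⟨u, nxt', h3, h4⟩ := nd_query (Γ := P.Stk) hN W i nxt
    refine ⟨u :: l, PP.Runs.query (P := toPP hN W P) (nxt := nxt') ?_ ?_, by simp [h2]⟩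
    · show nd hN W (P.act q) = _
      rw [h]; exact h3
    · rw [h4 x]; exact h1
  | @push q σ a q' t b h _ ih =>
    obtain ⟨l, h1, h2⟩ := ih
    refine ⟨l, PP.Runs.push (P := toPP hN W P) (a := a) (q' := q') ?_ h1, h2⟩
    show nd hN W (P.act q) = _
    rw [h]; rfl
  | @pop q a σ nxt t b h _ ih =>
    obtain ⟨l, h1, h2⟩ := ih
    refine ⟨l, PP.Runs.pop (P := toPP hN W P) (nxt := nxt) ?_ h1, h2⟩
    show nd hN W (P.act q) = _
    rw [h]; rfl

theorem runs_of (hN : 0 < N) (W : Fin n → Sym ⊕ Fin N) (P : PProg n) (x : Pt N)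
    {q : (toPP hN W P).State} {σ : List (toPP hN W P).Sym} {l : List (Fin N)} {b : Bool}
    (h : (toPP hN W P).Runs x q σ l b) :
    P.Runs (fun i => sv x (W i)) q σ l.length b := by
  induction h with
  | @out q σ b h =>
    have h' : nd hN W (P.act q) = .out b := h
    cases hq : P.act q with
    | query i nxt =>
      obtain ⟨u, nxt', h3, -⟩ := nd_query (Γ := P.Stk) hN W i nxt
      rw [hq, h3] at h'; cases h'
    | push a q' => rw [hq] at h'; cases h'
    | pop nxt => rw [hq] at h'; cases h'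
    | out b' =>
      rw [hq] at h'
      have h2 : b' = b := by injection h'
      subst h2
      exact PProg.Runs.out hq
  | @query q σ i nxt l b h _ ih =>
    have h' : nd hN W (P.act q) = .query i nxt := h
    cases hq : P.act q with
    | query j nxt2 =>
      obtain ⟨u, nxt', h3, h4⟩ := nd_query (Γ := P.Stk) hN W j nxt2
      rw [hq, h3] at h'
      injection h' with h5 h6
      subst h5
      subst h6
      refine PProg.Runs.query hq ?_
      show P.Runs (fun i => sv x (W i)) (nxt2 (sv x (W j))) σ l.length b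
      rw [← h4 x]
      exact ih
    | push a q' => rw [hq] at h'; cases h'
    | pop nxt' => rw [hq] at h'; cases h'
    | out b' => rw [hq] at h'; cases h'
  | @push q σ a s' l b h _ ih =>
    have h' : nd hN W (P.act q) = .push a s' := h
    cases hq : P.act q with
    | query j nxt2 =>
      obtain ⟨u, nxt', h3, -⟩ := nd_query (Γ := P.Stk) hN W j nxt2
      rw [hq, h3] at h'; cases h'
    | push a' q' =>
      rw [hq] at h'
      injection h' with h5 h6
      subst h5
      subst h6
      exact PProg.Runs.push hq ih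
    | pop nxt' => rw [hq] at h'; cases h'
    | out b' => rw [hq] at h'; cases h'
  | @pop q a σ nxt l b h _ ih =>
    have h' : nd hN W (P.act q) = .pop nxt := h
    cases hq : P.act q with
    | query j nxt2 =>
      obtain ⟨u, nxt', h3, -⟩ := nd_query (Γ := P.Stk) hN W j nxt2
      rw [hq, h3] at h'; cases h'
    | push a' q' => rw [hq] at h'; cases h'
    | pop nxt' =>
      rw [hq] at h'
      injection h' with h5
      subst h5
      exact PProg.Runs.pop hq ih
    | out b' => rw [hq] at h'; cases h'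

end

theorem mainS (k : ℕ) : ∃ D : ℕ, 0 < D ∧ ∀ n ≥ D, ∀ (I : Type) [Fintype I] [Nonempty I]
    (P : I → PProg n),
    (∀ i, Fintype.card (P i).Node < 2 ^ (n / D)) →
    (∀ (e : Expr) (h : e.code.length = n), e.Satisfiable →
      ∀ i, ¬ (P i).Answers (word e h) (k * n) false) →
    ∃ (e : Expr) (h : e.code.length = n), ¬ e.Satisfiable ∧
      2 ^ (n / D) * Nat.card {i : I // (P i).Answers (word e h) (k * n) false} < Nat.card I := by
  obtain ⟨p, l, D0, hp, hD0, hcore⟩ := coreS (960 * k)
  obtain ⟨m0, hfam⟩ := fam p l (by omega)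
  obtain ⟨C, hC⟩ : ∃ C, C = 60 * (p * p) := ⟨_, rfl⟩
  have hC0 : 0 < C := by rw [hC]; positivity
  obtain ⟨m1, hm1⟩ : ∃ c, c = m0 + D0 + 10 := ⟨_, rfl⟩
  refine ⟨C * ((m1 * m1) * (m1 * m1)) + 960 * D0, by omega, ?_⟩
  intro n hn I _ _ P hP hP1
  obtain ⟨m, hm2, hm3⟩ := root C n hC0
  have hmm : m1 ≤ m := by
    by_contra h
    have h1 : m + 1 ≤ m1 := by omega
    have h2 : C * (((m + 1) * (m + 1)) * ((m + 1) * (m + 1))) ≤ C * ((m1 * m1) * (m1 * m1)) :=
      Nat.mul_le_mul_left _ (Nat.mul_le_mul (Nat.mul_le_mul h1 h1) (Nat.mul_le_mul h1 h1))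
    omega
  have : NeZero m := ⟨by omega⟩
  obtain ⟨φ, j0, hφ1, hj0, hφ2, hφ3⟩ := hfam m (by omega)
  obtain ⟨N', hN'⟩ : ∃ N', N' = p * p * ((m * m) * (m * m)) := ⟨_, rfl⟩
  have hNN : p * p * nr 1 m = N' := by
    rw [hN']
    have hnr : nr 1 m = (1 * 1) * ((m * m) * (m * m)) := nr_eq
    rw [hnr]; ring
  have hmN : 10 * m ≤ N' := by
    have h1 : 10 * m ≤ m * m := Nat.mul_le_mul_right m (by omega)
    have h2 : m * m ≤ (m * m) * (m * m) := Nat.le_mul_self _
    have h3 : (m * m) * (m * m) ≤ p * p * ((m * m) * (m * m)) :=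
      Nat.le_mul_of_pos_left _ (by positivity)
    omega
  have hn1 : 60 * N' ≤ n := by
    rw [hN']
    calc 60 * (p * p * (m * m * (m * m))) = C * (m * m * (m * m)) := by rw [hC]; ring
      _ ≤ n := hm2
  have hn2 : n ≤ 960 * N' := by
    have h1 : (m + 1) * (m + 1) ≤ 4 * (m * m) := by nlinarith
    calc n ≤ C * (((m + 1) * (m + 1)) * ((m + 1) * (m + 1))) := hm3.le
      _ ≤ C * ((4 * (m * m)) * (4 * (m * m))) :=
          Nat.mul_le_mul_left _ (Nat.mul_le_mul h1 h1)
      _ = 960 * N' := by rw [hC, hN']; ring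
  have hpos : 0 < p * p * nr 1 m := by omega
  -- the padded formula
  have hφ1' : φ.code.length ≤ 30 * N' := hφ1.trans (le_of_eq (by rw [hNN]))
  obtain ⟨j, hj⟩ : ∃ j, j = n - φ.code.length - 5 := ⟨_, rfl⟩
  have hjl : φ.code.length + j + 5 = n := by omega
  have hjj : j0 ≤ j := by omega
  let ψ : TE (p * p * nr 1 m) := .and φ (.var (List.replicate j (Sum.inr false)))
  have hψl : ψ.code.length = n := by
    show (TE.and φ (.var (List.replicate j (Sum.inr false)))).code.length = n
    rw [len_and, len_var, List.length_replicate]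
    omega
  have hψs : ∀ x : Pt (p * p * nr 1 m), (ψ.inst x).Satisfiable ↔
      ∃ γ : Mu p l × Rest 1 m, Fm γ x ≠ 0 := by
    intro x
    rw [sat_iff, ← hφ3 x]
    constructor
    · rintro ⟨v, hv, -⟩
      exact ⟨v, hv⟩
    · intro hv
      obtain ⟨v, h1, h2⟩ := hφ2 ((List.replicate j (Sum.inr false)).map (dv x)) (by simpa using hjj)
        x hv
      exact ⟨v, h1, h2⟩
  have hlen : ∀ x, (ψ.inst x).code.length = n := fun x => (len_inst x ψ).trans hψl
  let W : Fin n → Sym ⊕ Fin (p * p * nr 1 m) := fun i => ψ.code.get (i.cast hψl.symm)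
  have hword : ∀ x, word (ψ.inst x) (hlen x) = fun i => sv x (W i) := by
    intro x
    funext i
    simp only [word, W, List.get_eq_getElem, Fin.val_cast]
    have h1 := code_inst x ψ
    rw [List.getElem_of_eq h1, List.getElem_map]
  have h1 : n / (C * ((m1 * m1) * (m1 * m1)) + 960 * D0) ≤ p * p * nr 1 m / D0 := by
    rw [hNN]
    calc n / (C * ((m1 * m1) * (m1 * m1)) + 960 * D0) ≤ (960 * N') / (960 * D0) :=
          Nat.div_le_div hn2 (by omega) (by omega)
      _ = N' / D0 := Nat.mul_div_mul_left _ _ (by norm_num)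
  have htt : k * n ≤ 960 * k * (p * p * nr 1 m) := by
    rw [hNN]
    calc k * n ≤ k * (960 * N') := Nat.mul_le_mul_left _ hn2
      _ = 960 * k * N' := by ring
  obtain ⟨x, hx1, hx2⟩ := hcore m (by omega) I (fun i => toPP hpos W (P i)) (by
    intro i
    exact lt_of_lt_of_le (hP i) (Nat.pow_le_pow_right (by norm_num) h1)) (k * n) htt (by
    intro x hx i l' hl'
    by_contra hlt
    have h2 := runs_of hpos W (P i) x hl'
    rw [← hword x] at h2
    exact hP1 _ (hlen x) ((hψs x).mpr hx) i ⟨l'.length, by omega, h2⟩)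
  refine ⟨ψ.inst x, hlen x, ?_, ?_⟩
  · rw [hψs x]
    push Not
    exact hx1
  · refine lt_of_le_of_lt (Nat.mul_le_mul (Nat.pow_le_pow_right (by norm_num) h1) ?_) hx2
    have h8 : ∀ i, (P i).Answers (word (ψ.inst x) (hlen x)) (k * n) false →
        ∃ l', (toPP hpos W (P i)).Comp x l' false ∧ l'.length ≤ k * n := by
      rintro i ⟨t, ht, h⟩
      rw [hword x] at h
      obtain ⟨l', h6, h7⟩ := runs_to hpos W (P i) x h
      exact ⟨l', h6, by omega⟩
    apply Nat.card_le_card_of_injective (fun i : {i : I //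
      (P i).Answers (word (ψ.inst x) (hlen x)) (k * n) false} => (⟨i.1, h8 i.1 i.2⟩ :
        {i : I // ∃ l', (toPP hpos W (P i)).Comp x l' false ∧ l'.length ≤ k * n}))
    intro i j hij
    simpa [Subtype.ext_iff] using hij

end Pool.Agent.W902.SatS
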