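import Pool.Agent.W902.SatS.Main
import Pool.Agent.W952.Sat.Taut

set_option autoImplicit false
set_option linter.unusedSectionVars false

/-! Families of pushdown programs with linearly many queries for tautologies. -/

open Finset

namespace Pool.Agent.W902.SatS

open Pool.Agent.H822R5.LN Pool.Agent.W952.Mx Pool.Agent.W952.Fr Pool.Agent.W952.Ap
open Pool.Agent.H554R2.Sem Pool.Agent.H554R2.Coin
open Pool.Agent.W952.Sat (Sym Expr word dig sv TE fam root len_and len_var sat_iff dv len_inst
  code_inst taut_neg word_neg)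
open Pool.Agent.W896.PD (PP)

theorem mainT (k : ℕ) : ∃ D : ℕ, 0 < D ∧ ∀ n ≥ D, ∀ T ≤ k * n, ∀ (I : Type) [Fintype I]
    [Nonempty I] (P : I → PProg n),
    (∀ i, Fintype.card (P i).Node < 2 ^ (n / D)) →
    (∀ (e : Expr) (h : e.code.length = n), e.Satisfiable →
      ∀ i, ¬ (P i).Answers (word e h) T false) →
    ∃ (e : Expr) (h : e.code.length = n), ¬ e.Satisfiable ∧
      2 ^ (n / D) * Nat.card {i : I // (P i).Answers (word e h) T false} < Nat.card I := by
  obtain ⟨p, l, D0, hp, hD0, hcore⟩ := coreS (960 * k)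
  obtain ⟨m0, hfam⟩ := fam p l (by omega)
  obtain ⟨C, hC⟩ : ∃ C, C = 60 * (p * p) := ⟨_, rfl⟩
  have hC0 : 0 < C := by rw [hC]; positivity
  obtain ⟨m1, hm1⟩ : ∃ c, c = m0 + D0 + 10 := ⟨_, rfl⟩
  refine ⟨C * ((m1 * m1) * (m1 * m1)) + 960 * D0, by omega, ?_⟩
  intro n hn T hT I _ _ P hP hP1
  obtain ⟨m, hm2, hm3⟩ := root C n hC0
  have hmm : m1 ≤ m := by
    by_contra h
    have h1 : m + 1 ≤ m1 := by omega
    have h2 : C * (((m + 1) * (m + 1)) * ((m + 1) * (m + 1))) ≤ C * ((m1 * m1) * (m1 * m1)) :=
      Nat.mul_le_mul_left _ (Nat.mul_le_mul (Nat.mul_le_mul h1 h1) (Nat.mul_le_mul h1 h1))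
    omega
  have : NeZero m := ⟨by omega⟩
  obtain ⟨φ, j0, hφ1, hj0, hφ2, hφ3⟩ := hfam m (by omega)
  obtain ⟨N', hN'⟩ : ∃ N', N' = p * p * ((m * m) * (m * m)) := ⟨_, rfl⟩
  have hNN : p * p * nr 1 m = N' := by
    rw [hN']
    have hnr : nr 1 m = (1 * 1) * ((m * m) * (m * m)) := nr_eq
    rw [hnr]; ring
  have hmN : 10 * m ≤ N' := by
    have h1 : 10 * m ≤ m * m := Nat.mul_le_mul_right m (by omega)
    have h2 : m * m ≤ (m * m) * (m * m) := Nat.le_mul_self _
    have h3 : (m * m) * (m * m) ≤ p * p * ((m * m) * (m * m)) :=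
      Nat.le_mul_of_pos_left _ (by positivity)
    omega
  have hn1 : 60 * N' ≤ n := by
    rw [hN']
    calc 60 * (p * p * (m * m * (m * m))) = C * (m * m * (m * m)) := by rw [hC]; ring
      _ ≤ n := hm2
  have hn2 : n ≤ 960 * N' := by
    have h1 : (m + 1) * (m + 1) ≤ 4 * (m * m) := by nlinarith
    calc n ≤ C * (((m + 1) * (m + 1)) * ((m + 1) * (m + 1))) := hm3.le
      _ ≤ C * ((4 * (m * m)) * (4 * (m * m))) :=
          Nat.mul_le_mul_left _ (Nat.mul_le_mul h1 h1)
      _ = 960 * N' := by rw [hC, hN']; ring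
  have hpos : 0 < p * p * nr 1 m := by omega
  -- the padded formula
  have hφ1' : φ.code.length ≤ 30 * N' := hφ1.trans (le_of_eq (by rw [hNN]))
  obtain ⟨j, hj⟩ : ∃ j, j = n - φ.code.length - 5 := ⟨_, rfl⟩
  have hjl : φ.code.length + j + 5 = n := by omega
  have hjj : j0 ≤ j := by omega
  let ψ : TE (p * p * nr 1 m) := .and φ (.var (List.replicate j (Sum.inr false)))
  have hψl : ψ.code.length = n := by
    show (TE.and φ (.var (List.replicate j (Sum.inr false)))).code.length = n
    rw [len_and, len_var, List.length_replicate]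
    omega
  have hψs : ∀ x : Pt (p * p * nr 1 m), (ψ.inst x).Satisfiable ↔
      ∃ γ : Mu p l × Rest 1 m, Fm γ x ≠ 0 := by
    intro x
    rw [sat_iff, ← hφ3 x]
    constructor
    · rintro ⟨v, hv, -⟩
      exact ⟨v, hv⟩
    · intro hv
      obtain ⟨v, h1, h2⟩ := hφ2 ((List.replicate j (Sum.inr false)).map (dv x)) (by simpa using hjj)
        x hv
      exact ⟨v, h1, h2⟩
  have hlen : ∀ x, (ψ.inst x).code.length = n := fun x => (len_inst x ψ).trans hψl
  let W : Fin n → Sym ⊕ Fin (p * p * nr 1 m) := fun i => ψ.code.get (i.cast hψl.symm)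
  have hword : ∀ x, word (ψ.inst x) (hlen x) = fun i => sv x (W i) := by
    intro x
    funext i
    simp only [word, W, List.get_eq_getElem, Fin.val_cast]
    have h1 := code_inst x ψ
    rw [List.getElem_of_eq h1, List.getElem_map]
  have h1 : n / (C * ((m1 * m1) * (m1 * m1)) + 960 * D0) ≤ p * p * nr 1 m / D0 := by
    rw [hNN]
    calc n / (C * ((m1 * m1) * (m1 * m1)) + 960 * D0) ≤ (960 * N') / (960 * D0) :=
          Nat.div_le_div hn2 (by omega) (by omega)
      _ = N' / D0 := Nat.mul_div_mul_left _ _ (by norm_num)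
  have htt : k * n ≤ 960 * k * (p * p * nr 1 m) := by
    rw [hNN]
    calc k * n ≤ k * (960 * N') := Nat.mul_le_mul_left _ hn2
      _ = 960 * k * N' := by ring
  obtain ⟨x, hx1, hx2⟩ := hcore m (by omega) I (fun i => toPP hpos W (P i)) (by
    intro i
    exact lt_of_lt_of_le (hP i) (Nat.pow_le_pow_right (by norm_num) h1)) T (hT.trans htt) (by
    intro x hx i l' hl'
    by_contra hlt
    have h2 := runs_of hpos W (P i) x hl'
    rw [← hword x] at h2
    exact hP1 _ (hlen x) ((hψs x).mpr hx) i ⟨l'.length, by omega, h2⟩)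
  refine ⟨ψ.inst x, hlen x, ?_, ?_⟩
  · rw [hψs x]
    push Not
    exact hx1
  · refine lt_of_le_of_lt (Nat.mul_le_mul (Nat.pow_le_pow_right (by norm_num) h1) ?_) hx2
    have h8 : ∀ i, (P i).Answers (word (ψ.inst x) (hlen x)) T false →
        ∃ l', (toPP hpos W (P i)).Comp x l' false ∧ l'.length ≤ T := by
      rintro i ⟨t, ht, h⟩
      rw [hword x] at h
      obtain ⟨l', h6, h7⟩ := runs_to hpos W (P i) x h
      exact ⟨l', h6, by omega⟩
    apply Nat.card_le_card_of_injective (fun i : {i : I //
      (P i).Answers (word (ψ.inst x) (hlen x)) T false} => (⟨i.1, h8 i.1 i.2⟩ :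
        {i : I // ∃ l', (toPP hpos W (P i)).Comp x l' false ∧ l'.length ≤ T}))
    intro i j hij
    simpa [Subtype.ext_iff] using hij


/-- a node of the program that knows the first letter and answers the contrary -/
def pnode {n : ℕ} (hn : 0 < n) {S Γ : Type} (a : Act (n + 1) S Γ) : Act n S Γ :=
  match a with
  | .query i nxt =>
    if h : i = 0 then .query ⟨0, hn⟩ (fun _ => nxt Sym.neg) else .query (i.pred h) nxt
  | .push a q => .push a q
  | .pop nxt => .pop nxt
  | .out b => .out (!b)

/-- the program that knows the first letter and answers the contrary -/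
@[reducible] def pre {n : ℕ} (hn : 0 < n) (P : PProg (n + 1)) : PProg n where
  Node := P.Node
  Stk := P.Stk
  start := P.start
  act := fun s => pnode hn (P.act s)

theorem pre_to {n : ℕ} (hn : 0 < n) (P : PProg (n + 1)) (w : Fin n → Sym)
    {q : P.Node} {σ : List P.Stk} {t : ℕ} {b : Bool} (h : P.Runs (Fin.cons Sym.neg w) q σ t b) :
    (pre hn P).Runs w q σ t (!b) := by
  induction h with
  | @out q σ b h =>
    apply PProg.Runs.out
    show pnode hn (P.act q) = _
    rw [h]; rfl
  | @query q σ i nxt t b h _ ih =>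
    by_cases hi : i = 0
    · subst hi
      refine PProg.Runs.query (P := pre hn P) (i := ⟨0, hn⟩) (nxt := fun _ => nxt Sym.neg) ?_ ?_
      · show pnode hn (P.act q) = _
        rw [h]; simp [pnode]
      · simpa using ih
    · obtain ⟨j, rfl⟩ := Fin.exists_succ_eq.mpr hi
      refine PProg.Runs.query (P := pre hn P) (i := j) (nxt := nxt) ?_ ?_
      · show pnode hn (P.act q) = _
        rw [h]; simp [pnode]
      · simpa using ih
  | @push q σ a q' t b h _ ih =>
    refine PProg.Runs.push (P := pre hn P) (a := a) (q' := q') ?_ ih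
    show pnode hn (P.act q) = _
    rw [h]; rfl
  | @pop q a σ nxt t b h _ ih =>
    refine PProg.Runs.pop (P := pre hn P) (nxt := nxt) ?_ ih
    show pnode hn (P.act q) = _
    rw [h]; rfl

theorem pre_of {n : ℕ} (hn : 0 < n) (P : PProg (n + 1)) (w : Fin n → Sym)
    {q : (pre hn P).Node} {σ : List (pre hn P).Stk} {t : ℕ} {b : Bool}
    (h : (pre hn P).Runs w q σ t b) : P.Runs (Fin.cons Sym.neg w) q σ t (!b) := by
  induction h with
  | @out q σ b h =>
    have h' : pnode hn (P.act q) = .out b := h
    cases hq : P.act q with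
    | query i nxt =>
      rw [hq] at h'
      by_cases hi : i = 0 <;> simp [pnode, hi] at h'
    | push a q' => rw [hq] at h'; cases h'
    | pop nxt => rw [hq] at h'; cases h'
    | out b' =>
      rw [hq] at h'
      have h2 : (!b') = b := by injection h'
      subst h2
      rw [Bool.not_not]
      exact PProg.Runs.out hq
  | @query q σ i nxt t b h _ ih =>
    have h' : pnode hn (P.act q) = .query i nxt := h
    cases hq : P.act q with
    | query j nxt2 =>
      rw [hq] at h'
      by_cases hj : j = 0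
      · subst hj
        simp only [pnode, dite_true, Act.query.injEq] at h'
        obtain ⟨rfl, rfl⟩ := h'
        refine PProg.Runs.query hq ?_
        simpa using ih
      · obtain ⟨j', rfl⟩ := Fin.exists_succ_eq.mpr hj
        simp only [pnode, Fin.succ_ne_zero, dite_false, Fin.pred_succ, Act.query.injEq] at h'
        obtain ⟨rfl, rfl⟩ := h'
        refine PProg.Runs.query hq ?_
        simpa using ih
    | push a q' => rw [hq] at h'; cases h'
    | pop nxt' => rw [hq] at h'; cases h'
    | out b' => rw [hq] at h'; cases h'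
  | @push q σ a s' t b h _ ih =>
    have h' : pnode hn (P.act q) = .push a s' := h
    cases hq : P.act q with
    | query j nxt2 =>
      rw [hq] at h'
      by_cases hj : j = 0 <;> simp [pnode, hj] at h'
    | push a' q' =>
      rw [hq] at h'
      injection h' with h5 h6
      subst h5
      subst h6
      exact PProg.Runs.push hq ih
    | pop nxt' => rw [hq] at h'; cases h'
    | out b' => rw [hq] at h'; cases h'
  | @pop q a σ nxt t b h _ ih =>
    have h' : pnode hn (P.act q) = .pop nxt := h
    cases hq : P.act q with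
    | query j nxt2 =>
      rw [hq] at h'
      by_cases hj : j = 0 <;> simp [pnode, hj] at h'
    | push a' q' => rw [hq] at h'; cases h'
    | pop nxt' =>
      rw [hq] at h'
      injection h' with h5
      subst h5
      exact PProg.Runs.pop hq ih
    | out b' => rw [hq] at h'; cases h'

theorem tautS (k : ℕ) : ∃ D : ℕ, 0 < D ∧ ∀ n ≥ D, ∀ (I : Type) [Fintype I] [Nonempty I]
    (P : I → PProg n),
    (∀ i, Fintype.card (P i).Node < 2 ^ (n / D)) →
    (∀ (e : Expr) (h : e.code.length = n), ¬ e.Tautology →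
      ∀ i, ¬ (P i).Answers (word e h) (k * n) true) →
    ∃ (e : Expr) (h : e.code.length = n), e.Tautology ∧
      2 ^ (n / D) * Nat.card {i : I // (P i).Answers (word e h) (k * n) true} < Nat.card I := by
  classical
  obtain ⟨D, hD, hmain⟩ := mainT (2 * k)
  refine ⟨2 * D + 2, by omega, ?_⟩
  intro n' hn' I _ _ P hP hP1
  obtain ⟨n, rfl⟩ : ∃ n, n' = n + 1 := ⟨n' - 1, by omega⟩
  have hn0 : 0 < n := by omega
  have hdiv : (n + 1) / (2 * D + 2) ≤ n / D := by
    calc (n + 1) / (2 * D + 2) ≤ (n + 1) / (2 * D) := Nat.div_le_div_left (by omega) (by omega)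
      _ ≤ (2 * n) / (2 * D) := Nat.div_le_div_right (by omega)
      _ = n / D := Nat.mul_div_mul_left _ _ (by norm_num)
  have hT : k * (n + 1) ≤ 2 * k * n := by
    have : k * 1 ≤ k * n := Nat.mul_le_mul_left _ hn0
    calc k * (n + 1) = k * n + k * 1 := by ring
      _ ≤ k * n + k * n := by omega
      _ = 2 * k * n := by ring
  obtain ⟨e, h, he, hc⟩ := hmain n (by omega) (k * (n + 1)) hT I (fun i => pre hn0 (P i)) (by
    intro i
    exact lt_of_lt_of_le (hP i) (Nat.pow_le_pow_right (by norm_num) hdiv)) (by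
    rintro e h he i ⟨t, ht, hans⟩
    have hans' := pre_of hn0 (P i) (word e h) hans
    have h' : (Expr.neg e).code.length = n + 1 := by simp [Expr.code, h]
    rw [← word_neg e h h'] at hans'
    exact hP1 _ h' (fun hT => (taut_neg e).mp hT he) i ⟨t, ht, hans'⟩)
  have h' : (Expr.neg e).code.length = n + 1 := by simp [Expr.code, h]
  refine ⟨Expr.neg e, h', (taut_neg e).mpr he, ?_⟩
  refine lt_of_le_of_lt (Nat.mul_le_mul (Nat.pow_le_pow_right (by norm_num) hdiv) ?_) hc
  have h8 : ∀ i, (P i).Answers (word (Expr.neg e) h') (k * (n + 1)) true →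
      (pre hn0 (P i)).Answers (word e h) (k * (n + 1)) false := by
    rintro i ⟨t, ht, hi⟩
    rw [word_neg e h h'] at hi
    exact ⟨t, ht, pre_to hn0 (P i) (word e h) hi⟩
  apply Nat.card_le_card_of_injective (fun i : {i : I //
    (P i).Answers (word (Expr.neg e) h') (k * (n + 1)) true} => (⟨i.1, h8 i.1 i.2⟩ :
      {i : I // (pre hn0 (P i)).Answers (word e h) (k * (n + 1)) false}))
  intro i j hij
  simpa [Subtype.ext_iff] using hij

end Pool.Agent.W902.SatS
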